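import Pool.Agent.MP_670f9a_nt.H13.Spec

/-!
A rational polynomial of low degree with an integral value at a small algebraic integer of large
degree has integer coefficients.
-/

namespace Pool.Agent.MP_670f9a_nt.H70

open Polynomial Pool.Agent.MP_670f9a_nt.H13

section Ultra

variable {E : Type} [NormedField E] [IsUltrametricDist E]

/-- The norm as an absolute value. -/
noncomputable def av (E : Type) [NormedField E] : AbsoluteValue E ℝ :=
  IsAbsoluteValue.toAbsoluteValue (norm : E → ℝ)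

omit [IsUltrametricDist E] in
lemma av_apply (x : E) : av E x = ‖x‖ := rfl

lemma av_na : IsNonarchimedean (av E) := fun x y => IsUltrametricDist.norm_add_le_max x y

/-- The Gauss norm. -/
noncomputable def gn (f : E[X]) : ℝ := f.gaussNorm (av E) 1

omit [IsUltrametricDist E] in
lemma gn_nonneg (f : E[X]) : 0 ≤ gn f := gaussNorm_nonneg (av E) f zero_le_one

lemma gn_mul (f g : E[X]) : gn (f * g) = gn f * gn g := gaussNorm_mul av_na zero_lt_one f g

omit [IsUltrametricDist E] in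
lemma gn_C (a : E) : gn (C a) = ‖a‖ := gaussNorm_C (av E) 1 a

omit [IsUltrametricDist E] in
lemma le_gn (f : E[X]) (i : ℕ) : ‖f.coeff i‖ ≤ gn f := by
  have := le_gaussNorm (av E) f zero_le_one i
  rw [one_pow, mul_one] at this
  exact this

lemma gn_add (f g : E[X]) : gn (f + g) ≤ max (gn f) (gn g) :=
  isNonarchimedean_gaussNorm (av E) av_na zero_le_one f g

lemma gn_pow (f : E[X]) (n : ℕ) : gn (f ^ n) = gn f ^ n := by
  induction n with
  | zero =>
    have := gn_C (1 : E)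
    simpa using this
  | succ n ih => rw [pow_succ, gn_mul, ih, pow_succ]

lemma gn_prod {ι : Type} (s : Finset ι) (f : ι → E[X]) :
    gn (∏ i ∈ s, f i) = ∏ i ∈ s, gn (f i) := by
  classical
  induction s using Finset.induction_on with
  | empty =>
    have := gn_C (1 : E)
    simpa using this
  | insert a s ha ih => rw [Finset.prod_insert ha, Finset.prod_insert ha, gn_mul, ih]

lemma gn_sum_le {ι : Type} (s : Finset ι) (f : ι → E[X]) (B : ℝ) (hB : 0 ≤ B)
    (h : ∀ i ∈ s, gn (f i) ≤ B) : gn (∑ i ∈ s, f i) ≤ B := by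
  classical
  induction s using Finset.induction_on with
  | empty =>
    have := gn_C (0 : E)
    simp only [map_zero, norm_zero] at this
    simpa [this] using hB
  | insert a s ha ih =>
    rw [Finset.sum_insert ha]
    refine (gn_add _ _).trans (max_le (h a (Finset.mem_insert_self _ _)) (ih ?_))
    intro i hi
    exact h i (Finset.mem_insert_of_mem hi)

lemma gn_X_sub_C (v : E) (hv : ‖v‖ ≤ 1) : gn (X - C v) ≤ 1 := by
  have h1 : gn (X : E[X]) ≤ 1 := by
    have := gaussNorm_monomial (av E) 1 1 (1 : E)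
    have h2 : (X : E[X]) = monomial 1 1 := rfl
    rw [h2]
    unfold gn
    rw [this]
    simp
  have h2 : gn (C (-v)) ≤ 1 := by rw [gn_C, norm_neg]; exact hv
  have h3 : (X - C v : E[X]) = X + C (-v) := by rw [map_neg, sub_eq_add_neg]
  rw [h3]
  exact (gn_add _ _).trans (max_le h1 h2)

lemma norm_le_one_of_integral (x : E) (h : IsIntegral ℤ x) : ‖x‖ ≤ 1 := by
  have h1 : IsIntegral (NormedField.valuation (K := E)).integer x := h.tower_top
  have h2 := (Valuation.integer.integers (NormedField.valuation (K := E))).mem_of_integral h1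
  have h3 : ‖x‖₊ ≤ 1 := h2
  exact_mod_cast h3

open Classical in
lemma gn_le_of_values (I : Finset E) (f : E[X]) (B : ℝ) (hB : 0 ≤ B) (hdeg : f.degree < I.card)
    (hI : ∀ v ∈ I, ‖v‖ ≤ 1) (hf : ∀ a ∈ I, ‖f.eval a‖ ≤ 1)
    (hmu : ∀ a ∈ I, 1 ≤ B * ∏ v ∈ I.erase a, ‖a - v‖) : gn f ≤ B := by
  have h := Lagrange.eq_interpolate (s := I) (v := id) (Set.injOn_id _) hdeg
  rw [h, Lagrange.interpolate_apply]
  refine gn_sum_le _ _ _ hB ?_
  intro a ha
  rw [gn_mul, gn_C, Lagrange.basis, gn_prod]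
  have h1 : ∏ j ∈ I.erase a, gn (Lagrange.basisDivisor (id a) (id j)) ≤
      ∏ j ∈ I.erase a, ‖a - j‖⁻¹ := by
    refine Finset.prod_le_prod (fun j _ => gn_nonneg _) ?_
    intro j hj
    rw [Lagrange.basisDivisor, gn_mul, gn_C, norm_inv]
    have := gn_X_sub_C j (hI j (Finset.mem_of_mem_erase hj))
    have h0 : 0 ≤ ‖a - j‖⁻¹ := inv_nonneg.2 (norm_nonneg _)
    calc ‖id a - id j‖⁻¹ * gn (X - C (id j)) ≤ ‖a - j‖⁻¹ * 1 :=
          mul_le_mul_of_nonneg_left this h0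
      _ = ‖a - j‖⁻¹ := mul_one _
  rw [Finset.prod_inv_distrib] at h1
  have hpos : 0 < ∏ v ∈ I.erase a, ‖a - v‖ := by
    refine Finset.prod_pos ?_
    intro v hv
    exact norm_pos_iff.2 (sub_ne_zero.2 (Finset.ne_of_mem_erase hv).symm)
  have h2 : (∏ v ∈ I.erase a, ‖a - v‖)⁻¹ ≤ B := by
    rw [inv_le_iff_one_le_mul₀ hpos]
    exact hmu a ha
  have h3 : ‖eval (id a) f‖ ≤ 1 := hf a ha
  have h4 : 0 ≤ ∏ j ∈ I.erase a, gn (Lagrange.basisDivisor (id a) (id j)) :=
    Finset.prod_nonneg fun j _ => gn_nonneg _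
  calc ‖eval (id a) f‖ * ∏ j ∈ I.erase a, gn (Lagrange.basisDivisor (id a) (id j))
      ≤ 1 * B := mul_le_mul h3 (h1.trans h2) h4 zero_le_one
    _ = B := one_mul _

end Ultra

lemma norm_int_alg (p : ℕ) [Fact p.Prime] (n : ℤ) :
    ‖(n : PadicAlgCl p)‖ = ‖(n : ℚ_[p])‖ := by
  rw [← PadicAlgCl.norm_extends p (n : ℚ_[p])]
  exact congrArg norm (map_intCast (algebraMap ℚ_[p] (PadicAlgCl p)) n).symm

lemma one_le_abs_mul_norm (p : ℕ) [hp : Fact p.Prime] (n : ℤ) (hn : n ≠ 0) :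
    1 ≤ |(n : ℝ)| * ‖(n : PadicAlgCl p)‖ := by
  rw [norm_int_alg]
  have h0 : (n : ℚ_[p]) ≠ 0 := by exact_mod_cast hn
  rw [Padic.norm_eq_zpow_neg_valuation h0, Padic.valuation_intCast, zpow_neg, zpow_natCast]
  have h1 : (p : ℤ) ^ padicValInt p n ∣ n := padicValInt_dvd n
  have h2 : (p : ℤ) ^ padicValInt p n ≤ |n| :=
    Int.le_of_dvd (abs_pos.2 hn) ((dvd_abs _ _).2 h1)
  have h3 : (p : ℝ) ^ padicValInt p n ≤ |(n : ℝ)| := by exact_mod_cast h2
  have hp0 : (0 : ℝ) < (p : ℝ) ^ padicValInt p n := by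
    have := hp.out.pos
    positivity
  rw [← div_eq_mul_inv, le_div_iff₀ hp0, one_mul]
  exact h3

lemma exists_prime_norm (c q : ℤ) (hq : q ≠ 0) (h : ¬ q ∣ c) :
    ∃ (p : ℕ) (_ : Fact p.Prime), 2 ≤ ‖(c : PadicAlgCl p) * (q : PadicAlgCl p)⁻¹‖ := by
  obtain ⟨c', q', hcop, hc, hq'⟩ :=
    Int.exists_gcd_one (m := c) (n := q) (Int.gcd_pos_of_ne_zero_right c hq)
  have hq1 : q'.natAbs ≠ 1 := by
    intro h1
    apply h
    have hu : IsUnit q' := Int.isUnit_iff_natAbs_eq.2 h1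
    rw [hc]
    conv_lhs => rw [hq']
    exact mul_dvd_mul hu.dvd dvd_rfl
  obtain ⟨p, hp, hpq⟩ := Nat.exists_prime_and_dvd hq1
  have : Fact p.Prime := ⟨hp⟩
  refine ⟨p, ⟨hp⟩, ?_⟩
  have hpq' : (p : ℤ) ∣ q' := Int.natCast_dvd.2 hpq
  have hpc : ¬ (p : ℤ) ∣ c' := by
    intro hpc
    have := Int.dvd_gcd hpc hpq'
    rw [hcop] at this
    exact hp.one_lt.ne' (Nat.dvd_one.1 this)
  have hg0 : ((Int.gcd c q : ℤ) : PadicAlgCl p) ≠ 0 := by
    have := (Int.gcd_pos_of_ne_zero_right c hq).ne'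
    exact_mod_cast this
  have hq'0 : q' ≠ 0 := by
    rintro rfl
    apply hq
    rw [hq', zero_mul]
  have hq'E : (q' : PadicAlgCl p) ≠ 0 := by exact_mod_cast hq'0
  have heq : (c : PadicAlgCl p) * (q : PadicAlgCl p)⁻¹ =
      (c' : PadicAlgCl p) * (q' : PadicAlgCl p)⁻¹ := by
    have e1 : (c : PadicAlgCl p) = (c' : PadicAlgCl p) * ((Int.gcd c q : ℤ) : PadicAlgCl p) := by
      conv_lhs => rw [hc]
      push_cast
      rfl
    have e2 : (q : PadicAlgCl p) = (q' : PadicAlgCl p) * ((Int.gcd c q : ℤ) : PadicAlgCl p) := by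
      conv_lhs => rw [hq']
      push_cast
      rfl
    rw [e1, e2]
    field_simp
  rw [heq, norm_mul, norm_inv, norm_int_alg, norm_int_alg]
  have h1 : ‖(c' : ℚ_[p])‖ = 1 := by
    refine le_antisymm (Padic.norm_int_le_one c') (not_lt.1 ?_)
    intro hlt
    exact hpc (Padic.norm_intCast_lt_one_iff.1 hlt)
  have h2 : ‖(q' : ℚ_[p])‖ ≤ (p : ℝ) ^ (-(1 : ℕ) : ℤ) :=
    (Padic.norm_int_le_pow_iff_dvd q' 1).2 (by simpa using hpq')
  have h3 : 0 < ‖(q' : ℚ_[p])‖ := norm_pos_iff.2 (by exact_mod_cast hq'0)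
  have h4 : (2 : ℝ) ≤ p := by exact_mod_cast hp.two_le
  rw [h1, one_mul, le_inv_comm₀ two_pos h3]
  refine h2.trans ?_
  rw [zpow_neg, zpow_natCast, pow_one]
  exact inv_anti₀ two_pos h4

lemma integral_transfer {E : Type} [Field E] [CharZero E] (A g : ℤ[X]) (q : ℤ) (α : ℂ) (a : E)
    (hA : A.Monic) (hirr : Irreducible A) (hα : aeval α A = 0) (ha : aeval a A = 0)
    (hint : IsIntegral ℤ (aeval α g / (q : ℂ))) : IsIntegral ℤ (aeval a g * (q : E)⁻¹) := by
  obtain ⟨H, hH, hH0⟩ := hint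
  refine ⟨H, hH, ?_⟩
  have hirr' : Irreducible (A.map (algebraMap ℤ ℚ)) :=
    (hA.irreducible_iff_irreducible_map_fraction_map (K := ℚ)).1 hirr
  have hα' : aeval α (A.map (algebraMap ℤ ℚ)) = 0 := by rw [aeval_map_algebraMap]; exact hα
  have hmin : A.map (algebraMap ℤ ℚ) = minpoly ℚ α :=
    minpoly.eq_of_irreducible_of_monic hirr' hα' (hA.map _)
  set P : ℚ[X] := (H.map (algebraMap ℤ ℚ)).comp (g.map (algebraMap ℤ ℚ) * C ((q : ℚ)⁻¹)) with hP
  have hPα : aeval α P = 0 := by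
    rw [hP, aeval_comp, aeval_map_algebraMap, map_mul, aeval_map_algebraMap, aeval_C]
    have : (algebraMap ℚ ℂ) ((q : ℚ)⁻¹) = (q : ℂ)⁻¹ := by simp
    rw [this, ← div_eq_mul_inv, aeval_def]
    exact hH0
  have hdvd : A.map (algebraMap ℤ ℚ) ∣ P := by
    rw [hmin]
    exact minpoly.dvd ℚ α hPα
  obtain ⟨Q, hQ⟩ := hdvd
  have hPa : aeval a P = 0 := by
    rw [hQ, map_mul, aeval_map_algebraMap, ha, zero_mul]
  rw [hP, aeval_comp, aeval_map_algebraMap, map_mul, aeval_map_algebraMap, aeval_C] at hPa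
  have : (algebraMap ℚ E) ((q : ℚ)⁻¹) = (q : E)⁻¹ := by simp
  rw [this, aeval_def] at hPa
  exact hPa

open Classical in
lemma core (hF : SFek) (hD : SDisc) (E : Type) [NormedField E] [IsUltrametricDist E] [CharZero E]
    [IsAlgClosed E] (A g : ℤ[X]) (m L : ℕ) (r : ℝ) (q : ℤ) (α : ℂ) (hA : A.Monic)
    (hirr : Irreducible A) (hm : A.natDegree = m) (h6 : 6 ≤ m) (hr : 1 ≤ r)
    (hroot : ∀ a : ℂ, aeval a A = 0 → ‖a‖ ≤ r) (hα : aeval α A = 0) (hL : 1 ≤ L)
    (h2L : 2 * L ≤ m) (hg : g.natDegree ≤ L) (hint : IsIntegral ℤ (aeval α g / (q : ℂ)))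
    (hineq : 6 * L * (3 * Real.log m + 2 * m * Real.log r) < m * Real.log 2) (i : ℕ)
    (hp2 : 2 ≤ ‖((g.coeff i : ℤ) : E) * (q : E)⁻¹‖)
    (hE : ∀ n : ℤ, n ≠ 0 → 1 ≤ |(n : ℝ)| * ‖(n : E)‖) : False := by
  obtain ⟨Δ, hΔ0, hΔ⟩ := hD.1 A hA hirr
  have hA0 : A ≠ 0 := hA.ne_zero
  -- the complex bound for the discriminant
  have hΔC : |(Δ : ℝ)| ≤ (m : ℝ) ^ (2 * m) * r ^ (m ^ 2) := by
    obtain ⟨hc, hprod⟩ := hΔ ℂ
    have hb := hD.2 (A.aroots ℂ).toFinset r hr (fun u hu => hroot u (by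
      have := Multiset.mem_toFinset.1 hu
      exact (mem_aroots.1 this).2))
    rw [hc, hm] at hb
    have hn := congrArg norm hprod
    simp only [norm_prod, Complex.norm_intCast] at hn
    rw [← hn]
    exact hb
  obtain ⟨hc, hprod⟩ := hΔ E
  set T := (A.aroots E).toFinset with hT
  have hTroot : ∀ u ∈ T, aeval u A = 0 := fun u hu =>
    (mem_aroots.1 (Multiset.mem_toFinset.1 hu)).2
  have hT1 : ∀ u ∈ T, ‖u‖ ≤ 1 := fun u hu =>
    norm_le_one_of_integral u ⟨A, hA, by rw [← aeval_def]; exact hTroot u hu⟩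
  have hsub : ∀ u ∈ T, ∀ v ∈ T, ‖u - v‖ ≤ 1 := by
    intro u hu v hv
    rw [sub_eq_add_neg]
    refine (IsUltrametricDist.norm_add_le_max _ _).trans (max_le (hT1 u hu) ?_)
    rw [norm_neg]
    exact hT1 v hv
  rw [hm] at hc
  obtain ⟨I, hIT, hIc, hI⟩ := hF E T (m / 2 + 1) (by omega)
  have hn := congrArg norm hprod
  simp only [norm_prod] at hn
  have hm0 : (1 : ℝ) ≤ m := by exact_mod_cast (by omega : 1 ≤ m)
  set B : ℝ := (m : ℝ) ^ 3 * r ^ (2 * m) with hB
  have hB0 : 0 ≤ B := by positivity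
  have hmu : ∀ a ∈ I, 1 ≤ B * ∏ v ∈ I.erase a, ‖a - v‖ := by
    intro a ha
    have h1 := hI a ha
    rw [hn, hc] at h1
    set μ := ∏ v ∈ I.erase a, ‖a - v‖ with hμ
    have hμ0 : 0 ≤ μ := Finset.prod_nonneg fun _ _ => norm_nonneg _
    have d1 : ∏ u ∈ I, ∏ v ∈ I.erase u, ‖u - v‖ ≤ 1 :=
      Finset.prod_le_one (fun _ _ => Finset.prod_nonneg fun _ _ => norm_nonneg _)
        fun u hu => Finset.prod_le_one (fun _ _ => norm_nonneg _)
          fun v hv => hsub u (hIT hu) v (hIT (Finset.mem_of_mem_erase hv))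
    have d2 : ∏ u ∈ T \ I, ∏ v ∈ (T \ I).erase u, ‖u - v‖ ≤ 1 :=
      Finset.prod_le_one (fun _ _ => Finset.prod_nonneg fun _ _ => norm_nonneg _)
        fun u hu => Finset.prod_le_one (fun _ _ => norm_nonneg _)
          fun v hv => hsub u (Finset.sdiff_subset hu) v
            (Finset.sdiff_subset (Finset.mem_of_mem_erase hv))
    have d3 : ∏ u ∈ T \ I, ‖u - a‖ ≤ 1 :=
      Finset.prod_le_one (fun _ _ => norm_nonneg _)
        fun u hu => hsub u (Finset.sdiff_subset hu) a (hIT ha)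
    have d20 : 0 ≤ ∏ u ∈ T \ I, ∏ v ∈ (T \ I).erase u, ‖u - v‖ :=
      Finset.prod_nonneg fun _ _ => Finset.prod_nonneg fun _ _ => norm_nonneg _
    have d30 : 0 ≤ ∏ u ∈ T \ I, ‖u - a‖ := Finset.prod_nonneg fun _ _ => norm_nonneg _
    have d4 : (∏ u ∈ I, ∏ v ∈ I.erase u, ‖u - v‖) *
        (∏ u ∈ T \ I, ∏ v ∈ (T \ I).erase u, ‖u - v‖) * (∏ u ∈ T \ I, ‖u - a‖) ^ 2 ≤ 1 :=
      mul_le_one₀ (mul_le_one₀ d1 d20 d2) (pow_nonneg d30 2) (pow_le_one₀ d30 d3)
    set k := 2 * (m - (m / 2 + 1)) with hk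
    have h2 : ‖(Δ : E)‖ ≤ μ ^ k :=
      h1.trans (by
        have := mul_le_mul_of_nonneg_right d4 (pow_nonneg hμ0 k)
        rwa [one_mul] at this)
    have h3 := hE Δ hΔ0
    have h4 : (m : ℝ) ^ (2 * m) * r ^ (m ^ 2) ≤ B ^ k := by
      rw [hB, mul_pow, ← pow_mul, ← pow_mul]
      refine mul_le_mul (pow_le_pow_right₀ hm0 (by omega)) (pow_le_pow_right₀ hr ?_)
        (by positivity) (by positivity)
      have : m ≤ 2 * k := by omega
      nlinarith
    have h5 : 1 ≤ (B * μ) ^ k := by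
      rw [mul_pow]
      exact h3.trans (mul_le_mul (hΔC.trans h4) h2 (norm_nonneg _) (pow_nonneg hB0 k))
    exact (one_le_pow_iff_of_nonneg (mul_nonneg hB0 hμ0) (by omega)).1 h5
  set l := (m / 2) / L with hl
  set f0 : E[X] :=
    g.map (algebraMap ℤ E) * C ((q : E)⁻¹) with hf0
  have hf0d : f0.natDegree ≤ L := by
    rw [hf0]
    exact (natDegree_mul_C_le _ _).trans (natDegree_map_le.trans hg)
  have hdeg : (f0 ^ l).degree < I.card := by
    refine lt_of_le_of_lt degree_le_natDegree ?_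
    rw [hIc]
    have h1 : (f0 ^ l).natDegree ≤ l * L :=
      natDegree_pow_le.trans (Nat.mul_le_mul_left l hf0d)
    have h2 : l * L ≤ m / 2 := Nat.div_mul_le_self _ _
    exact_mod_cast (by omega : (f0 ^ l).natDegree < m / 2 + 1)
  have hval : ∀ a ∈ I, ‖(f0 ^ l).eval a‖ ≤ 1 := by
    intro a ha
    rw [eval_pow, norm_pow]
    refine pow_le_one₀ (norm_nonneg _) ?_
    have := integral_transfer A g q α a hA hirr hα (hTroot a (hIT ha)) hint
    have h2 := norm_le_one_of_integral _ this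
    rw [hf0, eval_mul, eval_C, eval_map_algebraMap]
    exact h2
  have hup := gn_le_of_values I (f0 ^ l) B hB0 hdeg (fun v hv => hT1 v (hIT hv)) hval hmu
  have hlow : (2 : ℝ) ^ l ≤ gn (f0 ^ l) := by
    rw [gn_pow]
    refine pow_le_pow_left₀ zero_le_two (hp2.trans ?_) l
    have := le_gn f0 i
    rw [hf0, coeff_mul_C, coeff_map] at this
    rw [hf0]
    simpa using this
  have hlog : (l : ℝ) * Real.log 2 ≤ 3 * Real.log m + 2 * m * Real.log r := by
    have h1 := Real.log_le_log (by positivity) (hlow.trans hup)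
    rw [Real.log_pow, hB, Real.log_mul (by positivity) (by positivity), Real.log_pow,
      Real.log_pow] at h1
    push_cast at h1
    exact h1
  have hml : m ≤ 6 * L * l := by
    have h1 : 1 ≤ l := by
      rw [hl]
      exact (Nat.le_div_iff_mul_le (by omega)).2 (by omega)
    have h2 : m / 2 < L * (l + 1) := by
      rw [hl]
      exact Nat.lt_mul_div_succ _ (by omega)
    have h3 : L * (l + 1) ≤ 2 * (L * l) := by nlinarith
    have h4 : 6 * L * l = 6 * (L * l) := by ring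
    omega
  have hml' : (m : ℝ) ≤ 6 * L * l := by exact_mod_cast hml
  have hl2 : 0 < Real.log 2 := Real.log_pos one_lt_two
  have hL0 : (0 : ℝ) ≤ 6 * L := by positivity
  have h1 := mul_le_mul_of_nonneg_left hlog hL0
  have h2 := mul_le_mul_of_nonneg_right hml' hl2.le
  nlinarith

theorem sint : SFek → SDisc → SInt := by
  intro hF hD A g m L r q α hA hirr hm h6 hr hroot hα hq hL h2L hg hint hineq
  by_contra hnd
  obtain ⟨i, hi⟩ : ∃ i, ¬ q ∣ g.coeff i := by
    by_contra hall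
    push Not at hall
    exact hnd ((C_dvd_iff_dvd_coeff q g).2 hall)
  obtain ⟨p, hp, hp2⟩ := exists_prime_norm (g.coeff i) q hq hi
  exact core hF hD (PadicAlgCl p) A g m L r q α hA hirr hm h6 hr hroot hα hL h2L hg hint hineq i
    hp2 (one_le_abs_mul_norm p)

end Pool.Agent.MP_670f9a_nt.H70
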