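import Pool.Agent.MP_670f9a_nt.H13.Spec2

/-! Bezout's inequality for the degree of a common zero of two plane curves. -/

namespace Pool.Agent.MP_670f9a_nt.H70.Bez

open MvPolynomial Module Pool.Agent.MP_670f9a_nt.NP

/-- Rational polynomials with bounded degree in each variable. -/
noncomputable def V (a b : ℕ) : Submodule ℚ (MvPolynomial (Fin 2) ℚ) :=
  restrictSupport ℚ {m | m 0 ≤ a ∧ m 1 ≤ b}

theorem mem_V {a b : ℕ} {p : MvPolynomial (Fin 2) ℚ} :
    p ∈ V a b ↔ p.degreeOf 0 ≤ a ∧ p.degreeOf 1 ≤ b := by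
  rw [V, mem_restrictSupport_iff, degreeOf_le_iff, degreeOf_le_iff]
  exact ⟨fun h => ⟨fun m hm => (h hm).1, fun m hm => (h hm).2⟩,
    fun h m hm => ⟨h.1 m hm, h.2 m hm⟩⟩

/-- The exponents in a box. -/
noncomputable def eqv (a b : ℕ) :
    {m : Fin 2 →₀ ℕ | m 0 ≤ a ∧ m 1 ≤ b} ≃ Fin (a + 1) × Fin (b + 1) where
  toFun m := (⟨m.1 0, Nat.lt_succ_of_le m.2.1⟩, ⟨m.1 1, Nat.lt_succ_of_le m.2.2⟩)
  invFun x := ⟨ex x.1 x.2, by simpa [ex] using ⟨Nat.le_of_lt_succ x.1.2, Nat.le_of_lt_succ x.2.2⟩⟩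
  left_inv m := by
    ext i
    fin_cases i <;> simp [ex]
  right_inv x := by
    ext <;> simp [ex]

theorem fin_V (a b : ℕ) : Module.Finite ℚ (V a b) :=
  haveI := Finite.of_equiv _ (eqv a b).symm
  Module.Finite.of_basis (basisRestrictSupport ℚ {m : Fin 2 →₀ ℕ | m 0 ≤ a ∧ m 1 ≤ b})

theorem rank_V (a b : ℕ) : finrank ℚ (V a b) = (a + 1) * (b + 1) := by
  rw [V, finrank_eq_nat_card_basis (basisRestrictSupport ℚ _), Nat.card_congr (eqv a b)]
  simp

theorem clear (B : MvPolynomial (Fin 2) ℚ) : ∃ (c : ℤ) (B₀ : MvPolynomial (Fin 2) ℤ), c ≠ 0 ∧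
    map (Int.castRingHom ℚ) B₀ = C (c : ℚ) * B := by
  induction B using MvPolynomial.induction_on with
  | C a =>
    refine ⟨a.den, C a.num, by exact_mod_cast a.den_nz, ?_⟩
    rw [map_C, ← map_mul]
    congr 1
    simp
  | add p q hp hq =>
    obtain ⟨c, p₀, hc, hp⟩ := hp
    obtain ⟨d, q₀, hd, hq⟩ := hq
    refine ⟨c * d, C d * p₀ + C c * q₀, mul_ne_zero hc hd, ?_⟩
    rw [map_add, map_mul, map_mul, hp, hq, map_C, map_C, Int.cast_mul, map_mul]
    simp only [eq_intCast]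
    ring
  | mul_X p i hp =>
    obtain ⟨c, p₀, hc, hp⟩ := hp
    exact ⟨c, p₀ * X i, hc, by rw [map_mul, hp, map_X, mul_assoc]⟩

theorem deg_map (P : MvPolynomial (Fin 2) ℤ) (i : Fin 2) :
    (map (Int.castRingHom ℚ) P).degreeOf i = P.degreeOf i := by
  rw [degreeOf_eq_sup, degreeOf_eq_sup, support_map_of_injective _ Int.cast_injective]

theorem dvd_of {P G : MvPolynomial (Fin 2) ℤ} (hP : Irreducible P) (hG : ¬ P ∣ G)
    (hc : ∀ c : ℤ, c ≠ 0 → ¬ P ∣ C c) {A B : MvPolynomial (Fin 2) ℚ}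
    (h : map (Int.castRingHom ℚ) P * A = map (Int.castRingHom ℚ) G * B) :
    map (Int.castRingHom ℚ) P ∣ B := by
  obtain ⟨c, A₀, h1, hA⟩ := clear A
  obtain ⟨d, B₀, h2, hB⟩ := clear B
  have e : P * (C d * A₀) = G * (C c * B₀) := by
    apply map_injective (Int.castRingHom ℚ) Int.cast_injective
    rw [map_mul, map_mul, map_mul, map_mul, hA, hB, map_C, map_C]
    simp only [eq_intCast]
    linear_combination (C (c : ℚ) * C (d : ℚ)) * h
  have h3 : P ∣ B₀ :=
    ((hP.prime.dvd_or_dvd ((hP.prime.dvd_or_dvd ⟨_, e.symm⟩).resolve_left hG))).resolve_left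
      (hc c h1)
  have h4 := map_dvd (map (σ := Fin 2) (Int.castRingHom ℚ)) h3
  rw [hB] at h4
  exact (IsUnit.dvd_mul_left ((IsUnit.mk0 (d : ℚ) (by exact_mod_cast h2)).map C)).1 h4

theorem onto {K : Type} [Field K] [NumberField K] (α β : K)
    (h : IntermediateField.adjoin ℚ {α, β} = ⊤) {a b : ℕ} (ha : finrank ℚ K ≤ a)
    (hb : finrank ℚ K ≤ b) : (V a b).map (aeval (R := ℚ) ![α, β]).toLinearMap = ⊤ := by
  have pw : ∀ (x : K) (n e : ℕ), finrank ℚ K ≤ e → ∃ c : ℕ → ℚ,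
      x ^ n = ∑ i ∈ Finset.range (e + 1), c i • x ^ i := by
    intro x n e he
    have hi : IsIntegral ℚ x := Algebra.IsIntegral.isIntegral x
    have h1 := Polynomial.aeval_modByMonic_eq_self_of_root (p := Polynomial.X ^ n)
      (minpoly.aeval ℚ x)
    have h2 : (Polynomial.X ^ n %ₘ minpoly ℚ x).natDegree < e + 1 :=
      (Polynomial.natDegree_modByMonic_lt _ (minpoly.monic hi) (minpoly.ne_one ℚ x)).trans_le
        ((minpoly.natDegree_le x).trans (he.trans (Nat.le_succ e)))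
    rw [Polynomial.aeval_eq_sum_range' h2] at h1
    exact ⟨_, by simpa using h1.symm⟩
  have h2 : Algebra.adjoin ℚ (Set.range ![α, β]) = ⊤ := by
    have e : Set.range ![α, β] = {α, β} := by simp [Set.pair_comm]
    rw [e, ← IntermediateField.adjoin_toSubalgebra_of_isAlgebraic
      (fun x _ => Algebra.IsAlgebraic.isAlgebraic x), h]
    rfl
  rw [Algebra.adjoin_range_eq_range_aeval] at h2
  refine eq_top_iff.2 fun x _ => ?_
  obtain ⟨p, rfl⟩ : x ∈ (aeval (R := ℚ) ![α, β]).range := h2 ▸ Algebra.mem_top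
  induction p using MvPolynomial.induction_on' with
  | add p q hp hq =>
    rw [map_add]
    exact Submodule.add_mem _ (hp trivial) (hq trivial)
  | monomial u r =>
    obtain ⟨c, hc⟩ := pw α (u 0) a ha
    obtain ⟨d, hd⟩ := pw β (u 1) b hb
    have e : (aeval (R := ℚ) ![α, β]).toRingHom (monomial u r) = r • (α ^ u 0 * β ^ u 1) := by
      simp [aeval_monomial, Finsupp.prod_fintype, Algebra.smul_def]
    rw [e, hc, hd, Finset.sum_mul_sum]
    refine Submodule.smul_mem _ _ (Submodule.sum_mem _ fun i hi =>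
      Submodule.sum_mem _ fun j hj => ?_)
    rw [smul_mul_smul_comm]
    refine Submodule.smul_mem _ _ ⟨monomial (ex i j) 1, ?_, ?_⟩
    · intro m hm
      have := Finset.mem_singleton.1 (support_monomial_subset hm)
      subst this
      simpa [ex, Nat.lt_succ_iff] using And.intro hi hj
    · simp [aeval_monomial, Finsupp.prod_fintype, ex]

theorem rank_mul {Q : MvPolynomial (Fin 2) ℚ} (hQ : Q ≠ 0) (a b : ℕ) :
    finrank ℚ ((V a b).map (LinearMap.mulLeft ℚ Q)) = (a + 1) * (b + 1) := by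
  rw [← rank_V]
  exact (Submodule.equivMapOfInjective _ (mul_right_injective₀ hQ) _).finrank_eq.symm

theorem sBez : SBez := by
  intro K _ _ α β P G htop hP hG hPz hGz
  have hc : ∀ c : ℤ, c ≠ 0 → ¬ P ∣ C c := by
    rintro c h0 ⟨Q, hQ⟩
    have := congrArg (aeval ![α, β]) hQ
    rw [map_mul, hPz, zero_mul, aeval_C] at this
    exact h0 (by simpa using this)
  have hinj := map_injective (σ := Fin 2) (Int.castRingHom ℚ) Int.cast_injective
  have hev : ∀ Q : MvPolynomial (Fin 2) ℤ,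
      aeval ![α, β] (map (Int.castRingHom ℚ) Q) = aeval ![α, β] Q := fun Q =>
    aeval_map_algebraMap ℚ ![α, β] Q
  have hP0 : map (Int.castRingHom ℚ) P ≠ 0 := (map_ne_zero_iff _ hinj).2 hP.ne_zero
  have hG0 : map (Int.castRingHom ℚ) G ≠ 0 :=
    (map_ne_zero_iff _ hinj).2 fun e => hG (e ▸ dvd_zero _)
  rw [← hev] at hPz hGz
  have hdv := fun A B => dvd_of hP hG hc (A := A) (B := B)
  rw [← deg_map P 0, ← deg_map P 1, ← deg_map G 0, ← deg_map G 1]
  generalize map (Int.castRingHom ℚ) P = p at *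
  generalize map (Int.castRingHom ℚ) G = g at *
  have := fin_V
  set s := finrank ℚ K with hs
  let W := V (s + p.degreeOf 0 + g.degreeOf 0) (s + p.degreeOf 1 + g.degreeOf 1)
  let ev := (aeval (R := ℚ) ![α, β]).toLinearMap
  let U₁ := (V (s + g.degreeOf 0) (s + g.degreeOf 1)).map (LinearMap.mulLeft ℚ p)
  let U₂ := (V (s + p.degreeOf 0) (s + p.degreeOf 1)).map (LinearMap.mulLeft ℚ g)
  have h1 := Submodule.finrank_sup_add_finrank_inf_eq U₁ U₂
  rw [rank_mul hP0, rank_mul hG0] at h1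
  have h2 : U₁ ⊓ U₂ ≤ (V s s).map (LinearMap.mulLeft ℚ (g * p)) := by
    rintro x ⟨⟨A, -, hA⟩, B, hB, rfl⟩
    obtain ⟨Q, rfl⟩ := hdv A B hA
    refine ⟨Q, ?_, mul_assoc _ _ _⟩
    by_cases hQ : Q = 0
    · rw [hQ]
      exact Submodule.zero_mem _
    have := mem_V.1 hB
    rw [degreeOf_mul_eq hP0 hQ, degreeOf_mul_eq hP0 hQ] at this
    exact mem_V.2 ⟨by omega, by omega⟩
  have h3 := Submodule.finrank_mono h2
  rw [rank_mul (mul_ne_zero hG0 hP0)] at h3
  have h4 := LinearMap.finrank_range_add_finrank_ker (ev.domRestrict W)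
  rw [LinearMap.range_domRestrict, onto α β htop (by omega) (by omega), finrank_top, rank_V] at h4
  have h5 : U₁ ⊔ U₂ ≤ (LinearMap.ker (ev.domRestrict W)).map W.subtype := by
    refine sup_le ?_ ?_
    · rintro x ⟨A, hA, rfl⟩
      have := mem_V.1 hA
      have a0 := degreeOf_mul_le 0 p A
      have a1 := degreeOf_mul_le 1 p A
      refine ⟨⟨p * A, mem_V.2 ⟨by omega, by omega⟩⟩, ?_, rfl⟩
      change aeval ![α, β] (p * A) = 0
      rw [map_mul, hPz, zero_mul]
    · rintro x ⟨A, hA, rfl⟩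
      have := mem_V.1 hA
      have a0 := degreeOf_mul_le 0 g A
      have a1 := degreeOf_mul_le 1 g A
      refine ⟨⟨g * A, mem_V.2 ⟨by omega, by omega⟩⟩, ?_, rfl⟩
      change aeval ![α, β] (g * A) = 0
      rw [map_mul, hGz, zero_mul]
  have h6 := Submodule.finrank_mono h5
  rw [Submodule.finrank_map_subtype_eq] at h6
  nlinarith

end Pool.Agent.MP_670f9a_nt.H70.Bez
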